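import Pool.Agent.H219.WhR.Van

/-!
# Cyclic one-cocycles on invertible matrices over integral group rings
-/

set_option autoImplicit false
set_option linter.unusedSectionVars false

namespace H219.WhR

open Finset H219.Wh
open Pool.Agent.H23R2 (InvPair IsCoc DsumZ cf supp invPair_units pairing pairing_eq
  isCoc_of_hochschild mem_supp Y sum_Y_eq gam oneHom_gam gamS resc resS)
open scoped Classical

section vanish

variable {I : Type*} [Fintype I] {Γ : Type*} [Group Γ] {M : Type*} [AddCommGroup M]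

/-- vanishing on cocycles supported on the class of `g`, where `g` is not conjugate to
`g ^ p ^ j` for `j ≥ 1` -/
theorem class_zero' {a b : I → I → Γ → ℤ} {T : Finset Γ} (h : InvPair a b T) {p : ℕ}
    (hp : p.Prime) {g : Γ} (hg : ∀ j, 1 ≤ j → ∀ c : Γ, c * g * c⁻¹ ≠ g ^ p ^ j)
    (htf : ∀ x : M, p • x = 0 → x = 0)
    (hsep : ∀ x : M, (∀ m : ℕ, ∃ y : M, p ^ m • y = x) → x = 0)
    {F : Γ → Γ → M} (hF : IsCoc F) (hb : ∀ w, F w w = 0) (hsupp : ∀ w x, F w x ≠ 0 → IsConj g w) :
    DsumZ a b T F = 0 := by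
  have htf' : ∀ (k : ℕ) (x : M), p ^ k • x = 0 → x = 0 := by
    intro k
    induction k with
    | zero => intro x hx; simpa using hx
    | succ k ih =>
      intro x hx
      apply ih
      apply htf
      rw [smul_smul, ← pow_succ', hx]
  have hb' : ∀ (w : Γ) (k : ℕ), F (w ^ p ^ k) w = 0 := by
    intro w k
    apply htf' k
    have h1 : ∀ (m j : ℕ), F (w ^ m) (w ^ j) = j • F (w ^ m) w := by
      intro m j
      induction j with
      | zero => simp [hF.one]
      | succ j ih =>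
        rw [pow_succ, hF, ih, succ_nsmul]
        congr 2
        rw [← zpow_natCast, ← zpow_natCast, ← zpow_neg, ← zpow_add, ← zpow_add]
        congr 1
        ring
    rw [← h1, hb]
  -- for some `k` all the values vanish
  obtain ⟨k, hk⟩ : ∃ k : ℕ, ∀ y : Y I T,
      F (((y.2.2.1 : Γ) * y.2.2.2) ^ p ^ k) y.2.2.1 = 0 := by
    by_contra hcon
    push Not at hcon
    choose y hy using hcon
    have hconj : ∀ k, IsConj g (((y k).2.2.1 * (y k).2.2.2 : Γ) ^ p ^ k) := fun k =>
      hsupp _ _ (hy k)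
    obtain ⟨k, l, hkl, hykl⟩ := Finite.exists_ne_map_eq_of_infinite y
    have key : ∀ k l : ℕ, k < l → y k = y l → False := by
      intro k l hlt he
      have h1 := hconj k
      have h2 := hconj l
      rw [← he] at h2
      set w : Γ := (y k).2.2.1 * (y k).2.2.2 with hw
      obtain ⟨d, hd⟩ := Nat.exists_eq_add_of_lt hlt
      have h3 : w ^ p ^ l = (w ^ p ^ k) ^ p ^ (d + 1) := by
        rw [← pow_mul, ← pow_add]
        congr 2
      obtain ⟨c, hc⟩ := isConj_iff.1 h1
      obtain ⟨e, he'⟩ := isConj_iff.1 h2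
      rw [h3, ← hc, conj_pow] at he'
      apply hg (d + 1) (by omega) (c⁻¹ * e)
      rw [mul_inv_rev, inv_inv]
      calc c⁻¹ * e * g * (e⁻¹ * c) = c⁻¹ * (e * g * e⁻¹) * c := by group
        _ = c⁻¹ * (c * g ^ p ^ (d + 1) * c⁻¹) * c := by rw [he']
        _ = g ^ p ^ (d + 1) := by group
    rcases lt_or_gt_of_ne hkl with hlt | hlt
    · exact key k l hlt hykl
    · exact key l k hlt hykl.symm
  apply hsep
  intro m
  -- pass to `M / p ^ (m+1)`
  let φ : M →+ M := nsmulAddMonoidHom (p ^ (m + 1))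
  let q : M →+ M ⧸ φ.range := QuotientAddGroup.mk' φ.range
  have hM : ∀ x : M ⧸ φ.range, (p ^ (m + 1)) • x = 0 := by
    intro x
    obtain ⟨x, rfl⟩ := QuotientAddGroup.mk'_surjective φ.range x
    rw [← map_nsmul]
    exact (QuotientAddGroup.eq_zero_iff _).2 ⟨x, rfl⟩
  have hqF : IsCoc (fun w x => q (F w x)) := by
    intro w x y
    show q _ = q _ + q _
    rw [← map_add]
    exact congrArg q (hF w x y)
  have h1 := frob_iter h hp hM hqF (fun w k => by
    show q _ = 0
    rw [hb', map_zero]) k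
  have h2 : DsumZ a b T (fun w x => q (F (w ^ p ^ k) x)) = 0 := by
    unfold DsumZ
    apply Finset.sum_eq_zero
    intro y _
    show _ • q (F (((y.2.2.1 : Γ) * y.2.2.2) ^ p ^ k) y.2.2.1) = 0
    rw [hk, map_zero, smul_zero]
  have h5 : q (DsumZ a b T F) = 0 := by
    rw [map_DsumZ, h1]
    exact h2
  obtain ⟨x, hx⟩ := (QuotientAddGroup.eq_zero_iff _).1 h5
  refine ⟨p • x, ?_⟩
  rw [smul_smul, ← pow_succ]
  exact hx

/-- restriction of a cocycle to a set of classes -/
noncomputable def rest (C : ConjClasses Γ) (F : Γ → Γ → M) : Γ → Γ → M := fun w x =>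
  if ConjClasses.mk w = C then F w x else 0

lemma rest_coc (C : ConjClasses Γ) {F : Γ → Γ → M} (hF : IsCoc F) : IsCoc (rest C F) := by
  intro w x y
  have hc : ConjClasses.mk (x⁻¹ * w * x) = ConjClasses.mk w := by
    rw [ConjClasses.mk_eq_mk_iff_isConj]
    exact isConj_iff.2 ⟨x, by group⟩
  unfold rest
  rw [hc]
  split_ifs
  · exact hF w x y
  · rw [add_zero]

/-- **Cyclic one-cocycles**, coefficient form -/
theorem cyc_main {a b : I → I → Γ → ℤ} {T : Finset Γ} (h : InvPair a b T)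
    {F : Γ → Γ → M} (hF : IsCoc F) (hb : ∀ w, F w w = 0)
    (hG : ∀ g : Γ, g ≠ 1 → (∃ x, F g x ≠ 0) → ∃ p : ℕ, p.Prime ∧
      (∀ x : M, p • x = 0 → x = 0) ∧
      (∀ x : M, (∀ m : ℕ, ∃ y : M, p ^ m • y = x) → x = 0) ∧
      ∀ j, 1 ≤ j → ∀ c : Γ, c * g * c⁻¹ ≠ g ^ p ^ j) :
    DsumZ a b T F = F 1 (gam a b T) := by
  let cl : Y I T → ConjClasses Γ := fun y => ConjClasses.mk ((y.2.2.1 : Γ) * y.2.2.2)
  set cls : Finset (ConjClasses Γ) := insert (ConjClasses.mk 1) (Finset.univ.image cl) with hcls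
  have h1 : DsumZ a b T F = ∑ C ∈ cls, DsumZ a b T (rest C F) := by
    unfold DsumZ
    rw [Finset.sum_comm]
    apply Finset.sum_congr rfl
    intro y _
    rw [← Finset.smul_sum]
    congr 1
    rw [Finset.sum_eq_single (cl y)]
    · unfold rest
      rw [if_pos rfl]
    · intro C _ hC
      unfold rest
      rw [if_neg (fun hh => hC hh.symm)]
    · intro hh
      exact absurd (Finset.mem_insert_of_mem (Finset.mem_image_of_mem cl (Finset.mem_univ y))) hh
  have h2 : ∀ C : ConjClasses Γ, C ≠ ConjClasses.mk 1 → DsumZ a b T (rest C F) = 0 := by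
    intro C hC
    obtain ⟨g, rfl⟩ := ConjClasses.exists_rep C
    have hg1 : g ≠ 1 := by
      rintro rfl
      exact hC rfl
    by_cases hz : ∃ g', IsConj g g' ∧ ∃ x, F g' x ≠ 0
    · obtain ⟨g', hgg', hx⟩ := hz
      have hg1' : g' ≠ 1 := by
        rintro rfl
        rw [isConj_one_left] at hgg'
        exact hg1 hgg'
      obtain ⟨p, hp, htf, hsep, hc⟩ := hG g' hg1' hx
      refine class_zero' h hp hc htf hsep (rest_coc _ hF) ?_ ?_
      · intro w
        unfold rest
        split_ifs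
        · exact hb w
        · rfl
      · intro w x hne
        unfold rest at hne
        have h3 : ConjClasses.mk w = ConjClasses.mk g := by
          by_contra hcon
          exact hne (if_neg hcon)
        exact hgg'.symm.trans (ConjClasses.mk_eq_mk_iff_isConj.1 h3).symm
    · push Not at hz
      unfold DsumZ
      apply Finset.sum_eq_zero
      intro y _
      have h3 : rest (ConjClasses.mk g) F ((y.2.2.1 : Γ) * y.2.2.2) y.2.2.1 = 0 := by
        unfold rest
        split_ifs with h4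
        · exact hz _ (ConjClasses.mk_eq_mk_iff_isConj.1 h4).symm _
        · rfl
      rw [h3, smul_zero]
  have h3 : DsumZ a b T (rest (ConjClasses.mk 1) F) = F 1 (gam a b T) := by
    rw [oneHom_gam hF]
    unfold DsumZ
    apply Finset.sum_congr rfl
    intro y _
    congr 1
    unfold rest
    by_cases hy : (y.2.2.1 : Γ) * y.2.2.2 = 1
    · rw [if_pos hy, hy, if_pos rfl]
    · rw [if_neg hy, if_neg]
      rw [ConjClasses.mk_eq_mk_iff_isConj, isConj_one_left]
      exact fun hh => hy hh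
  rw [h1, Finset.sum_eq_single_of_mem (ConjClasses.mk 1) (Finset.mem_insert_self _ _), h3]
  intro C _ hC
  exact h2 C hC

end vanish

section units

variable {Γ : Type*} [Group Γ] {M : Type*} [AddCommGroup M] {n : ℕ}

/-- the finitely generated subgroup of an invertible matrix -/
noncomputable def suppGrp (A : (Matrix (Fin n) (Fin n) (MonoidAlgebra ℤ Γ))ˣ) : Subgroup Γ :=
  Subgroup.closure ((supp A.val ∪ supp (A⁻¹).val : Finset Γ) : Set Γ)

lemma suppGrp_fg (A : (Matrix (Fin n) (Fin n) (MonoidAlgebra ℤ Γ))ˣ) : (suppGrp A).FG :=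
  ⟨_, rfl⟩

/-- the group element of an invertible matrix -/
noncomputable def gamU (A : (Matrix (Fin n) (Fin n) (MonoidAlgebra ℤ Γ))ˣ) : Γ :=
  gamS (cf A.val) (cf (A⁻¹).val) (supp A.val ∪ supp (A⁻¹).val)

theorem units_main (A : (Matrix (Fin n) (Fin n) (MonoidAlgebra ℤ Γ))ˣ) (f : Γ → Γ → M)
    (hf : ∀ x y z : Γ, f (x * y) z - f x (y * z) + f (z * x) y = 0) (hf1 : ∀ g, f 1 g = 0)
    (hG : ∀ g ∈ suppGrp A, g ≠ 1 → (∃ x ∈ suppGrp A, f (x⁻¹ * g) x ≠ 0) → ∃ p : ℕ, p.Prime ∧
      (∀ x : M, p • x = 0 → x = 0) ∧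
      (∀ x : M, (∀ m : ℕ, ∃ y : M, p ^ m • y = x) → x = 0) ∧
      ∀ j, 1 ≤ j → ∀ c ∈ suppGrp A, c * g * c⁻¹ ≠ g ^ p ^ j) :
    (∑ i, ∑ j, ((A⁻¹).val i j).coeff.sum fun g b =>
      (A.val j i).coeff.sum fun h a => (b * a) • f g h) = f (gamU A)⁻¹ (gamU A) := by
  have hA : ∀ i j g, (A.val i j).coeff g ≠ 0 → g ∈ supp A.val ∪ supp (A⁻¹).val := fun i j g hg =>
    Finset.mem_union_left _ (mem_supp _ i j g hg)
  have hB : ∀ i j g, ((A⁻¹).val i j).coeff g ≠ 0 → g ∈ supp A.val ∪ supp (A⁻¹).val :=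
    fun i j g hg => Finset.mem_union_right _ (mem_supp _ i j g hg)
  have hcoc := isCoc_of_hochschild f hf
  have h1 := pairing_eq f (A⁻¹).val A.val _ hA hB
  unfold pairing at h1
  rw [h1]
  set S : Finset Γ := supp A.val ∪ supp (A⁻¹).val with hS
  have hpair : InvPair (cf A.val) (cf (A⁻¹).val) S := invPair_units A
  let F' : Subgroup.closure (S : Set Γ) → Subgroup.closure (S : Set Γ) → M :=
    fun w x => f (x.1⁻¹ * w.1) x.1
  have hF' : IsCoc F' := by
    intro w x y
    exact hcoc w.1 x.1 y.1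
  have h2 := cyc_main hpair.res hF' (by
    intro w
    show f (w.1⁻¹ * w.1) w.1 = 0
    rw [inv_mul_cancel]
    exact hf1 _) (by
    rintro g hg ⟨x, hx⟩
    obtain ⟨p, hp, h3, h4, h5⟩ := hG g.1 g.2 (fun h0 => hg (Subtype.ext h0)) ⟨x.1, x.2, hx⟩
    refine ⟨p, hp, h3, h4, fun j hj c hc => h5 j hj c.1 c.2 ?_⟩
    simpa using congrArg Subtype.val hc)
  have h3 := Pool.Agent.H23R2.DsumZ_res (S := S) (cf A.val) (cf (A⁻¹).val) F' (AddMonoidHom.id M)
    (fun w x => f (x⁻¹ * w) x) (fun w x => rfl)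
  rw [← h3, AddMonoidHom.id_apply, h2]
  show f ((gam (resc S (cf A.val)) (resc S (cf (A⁻¹).val)) (resS S)).1⁻¹ * 1) _ = _
  rw [mul_one]
  rfl

end units

end H219.WhR
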