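import Pool.Agent.H219.WhR.Key
import Pool.Agent.H23R2.Det

/-!
# Vanishing of the Dennis trace on a conjugacy class which is not infinitely `p`-divisible
-/

set_option autoImplicit false
set_option linter.unusedSectionVars false

namespace H219.WhR

open Finset H219.Wh
open Pool.Agent.H23R2 (InvPair IsCoc DsumZ cf supp invPair_units pairing pairing_eq
  isCoc_of_hochschild mem_supp Y sum_Y_eq)
open scoped Classical

section zmod

variable {p i N : ℕ} {M : Type*} [AddCommGroup M]

/-- an element of `ZMod (p ^ N)` killed by `p ^ (i+1)` acts as zero on `M` -/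
lemma star (hp : p.Prime) (hN : 2 * (i + 1) ≤ N) [Module (ZMod (p ^ N)) M]
    (hM : ∀ x : M, (p ^ (i + 1)) • x = 0) (x : ZMod (p ^ N))
    (hx : ((p ^ (i + 1) : ℕ) : ZMod (p ^ N)) * x = 0) (m : M) : x • m = 0 := by
  haveI : NeZero (p ^ N) := ⟨(pow_pos hp.pos _).ne'⟩
  have h1 : x = ((x.val : ℕ) : ZMod (p ^ N)) := (ZMod.natCast_zmod_val x).symm
  have h2 : ((p ^ (i + 1) * x.val : ℕ) : ZMod (p ^ N)) = 0 := by
    rw [Nat.cast_mul, ← h1]
    exact hx
  rw [ZMod.natCast_eq_zero_iff] at h2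
  have h3 : p ^ (i + 1) ∣ x.val := by
    have h4 : p ^ (i + 1) * p ^ (i + 1) ∣ p ^ (i + 1) * x.val := by
      refine dvd_trans ?_ h2
      rw [← pow_add]
      exact pow_dvd_pow _ (by omega)
    exact Nat.dvd_of_mul_dvd_mul_left (pow_pos hp.pos _) h4
  obtain ⟨c, hc⟩ := h3
  rw [h1, Nat.cast_smul_eq_nsmul, hc, mul_comm, mul_smul, hM, smul_zero]

end zmod

section letters

variable {I : Type*} [Fintype I] {Γ : Type*} [Group Γ] {n : ℕ} [NeZero n]
  {M : Type*} [AddCommGroup M] [Module (ZMod n) M]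

/-- the letters -/
def lett (a : I → I → Γ → ZMod n) (T : Finset Γ) : I → I → (T × Fin n) → ZMod n := fun i j s =>
  if (s.2 : ℕ) < (a i j s.1).val then 1 else 0

/-- the group element of a letter -/
def grl (T : Finset Γ) (n : ℕ) : T × Fin n → Γ := fun s => s.1

lemma sum_lett (a : I → I → Γ → ZMod n) (T : Finset Γ) (i j : I) (x : T) :
    ∑ k : Fin n, lett a T i j (x, k) = a i j x := by
  unfold lett
  simp only
  rw [Fin.sum_univ_eq_sum_range (fun k => if k < (a i j x).val then (1 : ZMod n) else 0) n]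
  rw [← Finset.sum_filter]
  have h : (Finset.range n).filter (fun k => k < (a i j x).val) =
      Finset.range (a i j x).val := by
    ext k
    simp only [Finset.mem_filter, Finset.mem_range]
    have := ZMod.val_lt (a i j x)
    omega
  rw [h, Finset.sum_const, Finset.card_range, nsmul_eq_mul, mul_one]
  exact ZMod.natCast_zmod_val _

lemma lett_pow {p : ℕ} (hp : p ≠ 0) (a : I → I → Γ → ZMod n) (T : Finset Γ) (i j : I)
    (s : T × Fin n) : lett a T i j s ^ p = lett a T i j s := by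
  unfold lett
  split_ifs
  · exact one_pow _
  · exact zero_pow hp

lemma sum_letters (a b : I → I → Γ → ZMod n) (T : Finset Γ)
    (i j i' j' : I) (G : Γ → Γ → M) :
    ∑ s : T × Fin n, ∑ t : T × Fin n, (lett a T i j s * lett b T i' j' t) •
      G (grl T n s) (grl T n t) = ∑ x ∈ T, ∑ y ∈ T, (a i j x * b i' j' y) • G x y := by
  rw [Fintype.sum_prod_type, ← Finset.sum_coe_sort T]
  apply Finset.sum_congr rfl
  intro x _
  have h1 : ∀ k : Fin n, ∑ t : T × Fin n, (lett a T i j (x, k) * lett b T i' j' t) •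
      G (grl T n (x, k)) (grl T n t) =
      lett a T i j (x, k) • ∑ y : T, b i' j' y • G x y := by
    intro k
    rw [Fintype.sum_prod_type, Finset.smul_sum]
    apply Finset.sum_congr rfl
    intro y _
    simp only [grl, mul_smul]
    rw [← Finset.smul_sum, ← Finset.sum_smul, sum_lett b T i' j' y]
  simp_rw [h1]
  rw [← Finset.sum_smul, sum_lett a T i j x, ← Finset.sum_coe_sort T,
    Finset.smul_sum]
  apply Finset.sum_congr rfl
  intro y _
  rw [mul_smul]

lemma ip_half {a b : I → I → Γ → ZMod n} {T : Finset Γ}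
    (h : ∀ i i' g, ∑ j, ∑ x ∈ T, ∑ y ∈ T, (if x * y = g then a i j x * b j i' y else 0)
      = if i = i' ∧ g = 1 then 1 else 0) (i i' : I) (g : Γ) :
    ∑ j, ∑ s, ∑ t, (if grl T n s * grl T n t = g then lett a T i j s * lett b T j i' t else 0)
      = if i = i' ∧ g = 1 then 1 else 0 := by
  rw [← h i i' g]
  apply Finset.sum_congr rfl
  intro j _
  have h1 := sum_letters a b T i j j i' (fun x y => if x * y = g then (1 : ZMod n) else 0)
  simp only [smul_eq_mul, mul_ite, mul_one, mul_zero] at h1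
  exact h1

lemma ip_of_invPair {a b : I → I → Γ → ZMod n} {T : Finset Γ} (h : InvPair a b T) :
    IP (grl T n) (lett a T) (lett b T) :=
  ⟨fun i i' g => ip_half (fun i i' g => by convert h.ab i i' g) i i' g,
    fun i i' g => ip_half (fun i i' g => by convert h.ba i i' g) i i' g⟩

lemma Dsum_lett (a b : I → I → Γ → ℤ) (T : Finset Γ) (F : Γ → Γ → M) :
    Dsum (grl T n) (lett (fun i j g => (a i j g : ZMod n)) T)
      (lett (fun i j g => (b i j g : ZMod n)) T) F = DsumZ a b T F := by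
  unfold Dsum
  have h2 : DsumZ a b T F = ∑ i, ∑ j, ∑ x ∈ T, ∑ y ∈ T, (a i j x * b j i y) • F (x * y) x :=
    sum_Y_eq T (fun i j x y => (a i j x * b j i y) • F (x * y) x)
  rw [h2, Fintype.sum_prod_type]
  apply Finset.sum_congr rfl
  intro i _
  rw [Fintype.sum_prod_type]
  apply Finset.sum_congr rfl
  intro j _
  have h1 := sum_letters (fun i j g => (a i j g : ZMod n)) (fun i j g => (b i j g : ZMod n)) T
    i j j i (fun x y => F (x * y) x)
  rw [Fintype.sum_prod_type]
  refine h1.trans ?_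
  apply Finset.sum_congr rfl
  intro x _
  apply Finset.sum_congr rfl
  intro y _
  rw [← Int.cast_mul, Int.cast_smul_eq_zsmul]

end letters

section vanish

variable {I : Type*} [Fintype I] {Γ : Type*} [Group Γ] {M : Type*} [AddCommGroup M]

lemma coc_pow {F : Γ → Γ → M} (hF : IsCoc F) (m : ℕ) : IsCoc (fun w x => F (w ^ m) x) := by
  intro w x y
  show F (w ^ m) (x * y) = F (w ^ m) x + F ((x⁻¹ * w * x) ^ m) y
  rw [hF (w ^ m) x y]
  congr 2
  have : (x⁻¹ * w * x) ^ m = x⁻¹ * w ^ m * x := by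
    have h := conj_pow (a := x⁻¹) (b := w) (i := m)
    rw [inv_inv] at h
    exact h
  exact this.symm

lemma map_DsumZ {M' : Type*} [AddCommGroup M'] (q : M →+ M') (a b : I → I → Γ → ℤ)
    (T : Finset Γ) (F : Γ → Γ → M) :
    q (DsumZ a b T F) = DsumZ a b T (fun w x => q (F w x)) := by
  unfold DsumZ
  rw [map_sum]
  apply Finset.sum_congr rfl
  intro y _
  rw [map_zsmul]

/-- **Frobenius relation for integral matrices**, all primes -/
theorem frob {a b : I → I → Γ → ℤ} {T : Finset Γ} (h : InvPair a b T) {p i : ℕ} (hp : p.Prime)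
    (hM : ∀ x : M, (p ^ (i + 1)) • x = 0) {F : Γ → Γ → M} (hF : IsCoc F)
    (hb : ∀ w, F w w = 0) :
    DsumZ a b T F = DsumZ a b T (fun w x => F (w ^ p) x) := by
  haveI : Fact p.Prime := ⟨hp⟩
  haveI : NeZero (p ^ (2 * (i + 1))) := ⟨(pow_pos hp.pos _).ne'⟩
  have hM2 : ∀ x : M, (p ^ (2 * (i + 1))) • x = 0 := by
    intro x
    rw [two_mul, pow_add, mul_smul, hM]
  letI : Module (ZMod (p ^ (2 * (i + 1)))) M := AddCommGroup.zmodModule hM2
  have h1 := frobenius_relation (p := p) (i := i) (M := M)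
    (fun x hx m => star hp (le_refl _) hM x hx m)
    (ip_of_invPair (h.map (Int.castRingHom (ZMod (p ^ (2 * (i + 1)))))))
    (lett_pow hp.ne_zero _ _) (lett_pow hp.ne_zero _ _) hM hF hb
  have h2 := Dsum_lett (n := p ^ (2 * (i + 1))) a b T F
  have h3 := Dsum_lett (n := p ^ (2 * (i + 1))) a b T (fun w x => F (w ^ p) x)
  rw [← h2, ← h3]
  exact h1

/-- iteration of the Frobenius relation -/
theorem frob_iter {a b : I → I → Γ → ℤ} {T : Finset Γ} (h : InvPair a b T) {p i : ℕ}
    (hp : p.Prime) (hM : ∀ x : M, (p ^ (i + 1)) • x = 0) {F : Γ → Γ → M} (hF : IsCoc F)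
    (hb : ∀ (w : Γ) (k : ℕ), F (w ^ p ^ k) w = 0) (k : ℕ) :
    DsumZ a b T F = DsumZ a b T (fun w x => F (w ^ p ^ k) x) := by
  induction k with
  | zero => simp
  | succ k ih =>
    rw [ih, frob h hp hM (coc_pow hF (p ^ k)) (fun w => hb w k)]
    congr 1
    funext w x
    rw [← pow_mul, pow_succ, mul_comm]

/-- vanishing on cocycles supported on a class without roots -/
theorem class_zero {a b : I → I → Γ → ℤ} {T : Finset Γ} (h : InvPair a b T) {p : ℕ}
    (hp : p.Prime) {g : Γ} (hg : ∃ k : ℕ, ∀ x : Γ, x ^ p ^ k ≠ g)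
    (htf : ∀ x : M, p • x = 0 → x = 0)
    (hsep : ∀ x : M, (∀ m : ℕ, ∃ y : M, p ^ m • y = x) → x = 0)
    {F : Γ → Γ → M} (hF : IsCoc F) (hb : ∀ w, F w w = 0) (hsupp : ∀ w x, F w x ≠ 0 → IsConj g w) :
    DsumZ a b T F = 0 := by
  have htf' : ∀ (k : ℕ) (x : M), p ^ k • x = 0 → x = 0 := by
    intro k
    induction k with
    | zero => intro x hx; simpa using hx
    | succ k ih =>
      intro x hx
      apply ih
      apply htf
      rw [smul_smul, ← pow_succ', hx]
  have hb' : ∀ (w : Γ) (k : ℕ), F (w ^ p ^ k) w = 0 := by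
    intro w k
    apply htf' k
    -- `F (w ^ m) (w ^ m) = m • F (w ^ m) w`
    have h1 : ∀ (m j : ℕ), F (w ^ m) (w ^ j) = j • F (w ^ m) w := by
      intro m j
      induction j with
      | zero => simp [hF.one]
      | succ j ih =>
        rw [pow_succ, hF, ih, succ_nsmul]
        congr 2
        rw [← zpow_natCast, ← zpow_natCast, ← zpow_neg, ← zpow_add, ← zpow_add]
        congr 1
        ring
    rw [← h1, hb]
  apply hsep
  intro m
  -- pass to `M / p ^ (m+1)`
  let φ : M →+ M := nsmulAddMonoidHom (p ^ (m + 1))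
  let q : M →+ M ⧸ φ.range := QuotientAddGroup.mk' φ.range
  have hM : ∀ x : M ⧸ φ.range, (p ^ (m + 1)) • x = 0 := by
    intro x
    obtain ⟨x, rfl⟩ := QuotientAddGroup.mk'_surjective φ.range x
    rw [← map_nsmul]
    exact (QuotientAddGroup.eq_zero_iff _).2 ⟨x, rfl⟩
  obtain ⟨k, hk⟩ := hg
  have hqF : IsCoc (fun w x => q (F w x)) := by
    intro w x y
    show q _ = q _ + q _
    rw [← map_add]
    exact congrArg q (hF w x y)
  have h1 := frob_iter h hp hM hqF (fun w k => by
    show q _ = 0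
    rw [hb', map_zero]) k
  have h2 : DsumZ a b T (fun w x => q (F (w ^ p ^ k) x)) = 0 := by
    unfold DsumZ
    apply Finset.sum_eq_zero
    intro y _
    have h3 : F (((y.2.2.1 : Γ) * y.2.2.2) ^ p ^ k) y.2.2.1 = 0 := by
      by_contra hne
      obtain ⟨c, hc⟩ := isConj_iff.1 (hsupp _ _ hne)
      apply hk (c⁻¹ * ((y.2.2.1 : Γ) * y.2.2.2) * c)
      have h4 := conj_pow (a := c⁻¹) (b := (y.2.2.1 : Γ) * y.2.2.2) (i := p ^ k)
      rw [inv_inv] at h4
      rw [h4, ← hc]
      group
    show _ • q (F (((y.2.2.1 : Γ) * y.2.2.2) ^ p ^ k) y.2.2.1) = 0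
    rw [h3, map_zero, smul_zero]
  have h5 : q (DsumZ a b T F) = 0 := by
    rw [map_DsumZ, h1]
    exact h2
  obtain ⟨x, hx⟩ := (QuotientAddGroup.eq_zero_iff _).1 h5
  refine ⟨p • x, ?_⟩
  rw [smul_smul, ← pow_succ]
  exact hx

end vanish

end H219.WhR
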